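import Pool.Agent.H98.RFC.Targets

set_option autoImplicit false

noncomputable section

open MeasureTheory ProbabilityTheory Pool.Agent.H98.RFC

namespace Pool.Agent.H30.RFC

theorem pf_LOC : T_LOC := by
  intro R J h h' T Λ x hh
  have hen : ∀ A : Set Site, en R J h Λ A = en R J h' Λ A := by
    intro A
    unfold en
    congr 1
    exact Finset.sum_congr rfl fun z hz => by rw [hh z hz]
  have hwt : ∀ (B : Set Site) (S : Finset Site), wt R J h T Λ B S = wt R J h' T Λ B S := by
    intro B S
    unfold wt
    rw [hen]
  have hmg : ∀ (B : Set Site) (z : Site), mg R J h T Λ B z = mg R J h' T Λ B z := by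
    intro B z
    unfold mg Zf
    simp only [hwt]
  have hgs : ∀ B : Set Site, gs R J h Λ B = gs R J h' Λ B := by
    intro B
    unfold gs
    simp only [hen]
  have hmg0 : ∀ (B : Set Site) (z : Site), mg0 R J h Λ B z = mg0 R J h' Λ B z := by
    intro B z
    unfold mg0
    simp only [hgs]
  unfold infl inf0 inf1
  simp only [hmg, hmg0]

end Pool.Agent.H30.RFC
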