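import Pool.Agent.H98.RFC.Targets

set_option autoImplicit false

noncomputable section

open MeasureTheory ProbabilityTheory Pool.Agent.H98.RFC

namespace Pool.Agent.H30.RFC

/-- translation by `y` -/
def tau (y : Site) : Site ≃ Site := Equiv.addLeft y

theorem tau_apply (y x : Site) : tau y x = y + x := rfl

theorem bx_map (y : Site) (r : ℕ) : bx y r = (box r).map (tau y).toEmbedding := by
  ext z
  simp only [Finset.mem_map_equiv, bx, box, Finset.mem_product, Finset.mem_Icc]
  have h1 : (tau y).symm z = z - y := by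
    rw [Equiv.symm_apply_eq, tau_apply]
    abel
  rw [h1, Prod.fst_sub, Prod.snd_sub]
  constructor
  · rintro ⟨⟨a, b⟩, c, d⟩
    refine ⟨⟨?_, ?_⟩, ?_, ?_⟩ <;> linarith
  · rintro ⟨⟨a, b⟩, c, d⟩
    refine ⟨⟨?_, ?_⟩, ?_, ?_⟩ <;> linarith

theorem mem_bx_tau (y x z : Site) (R : ℕ) : tau y z ∈ bx (tau y x) R ↔ z ∈ bx x R := by
  simp only [bx, Finset.mem_product, Finset.mem_Icc, tau_apply, Prod.fst_add, Prod.snd_add]
  constructor
  · rintro ⟨⟨a, b⟩, c, d⟩
    refine ⟨⟨?_, ?_⟩, ?_, ?_⟩ <;> linarith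
  · rintro ⟨⟨a, b⟩, c, d⟩
    refine ⟨⟨?_, ?_⟩, ?_, ?_⟩ <;> linarith

theorem hull_map (R : ℕ) (y : Site) (Λ : Finset Site) :
    hull R (Λ.map (tau y).toEmbedding) = (hull R Λ).map (tau y).toEmbedding := by
  ext z
  obtain ⟨w, rfl⟩ := (tau y).surjective z
  simp only [hull, Finset.mem_biUnion, Finset.mem_map_equiv, Equiv.symm_apply_apply]
  constructor
  · rintro ⟨a, ha, hb⟩
    refine ⟨(tau y).symm a, ha, ?_⟩
    rw [← mem_bx_tau y, Equiv.apply_symm_apply]
    exact hb
  · rintro ⟨a, ha, hb⟩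
    refine ⟨tau y a, ?_, (mem_bx_tau y a w R).mpr hb⟩
    rw [Equiv.symm_apply_apply]
    exact ha

theorem prs_map (R : ℕ) (y : Site) (Λ : Finset Site) :
    prs R (Λ.map (tau y).toEmbedding)
      = (prs R Λ).map ((tau y).prodCongr (tau y)).toEmbedding := by
  ext ⟨a, b⟩
  obtain ⟨a, rfl⟩ := (tau y).surjective a
  obtain ⟨b, rfl⟩ := (tau y).surjective b
  simp only [prs, hull_map, Finset.mem_filter, Finset.mem_product, Finset.mem_map_equiv,
    Equiv.symm_apply_apply, Equiv.prodCongr_symm, Equiv.prodCongr_apply, Prod.map_apply]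
  have h1 : tau y b - tau y a = b - a := by
    rw [tau_apply, tau_apply]
    abel
  rw [h1]

theorem sg_tau (A : Set Site) (y x : Site) : sg A (tau y x) = sg ((tau y) ⁻¹' A) x := rfl

theorem en_map (R : ℕ) (J h : Site → ℝ) (y : Site) (Λ : Finset Site) (A : Set Site) :
    en R J h (Λ.map (tau y).toEmbedding) A
      = en R J (fun x => h (y + x)) Λ ((tau y) ⁻¹' A) := by
  unfold en
  rw [prs_map, Finset.sum_map, Finset.sum_map]
  congr 2
  refine Finset.sum_congr rfl fun p _ => ?_
  show J (tau y p.1 - tau y p.2) * sg A (tau y p.1) * sg A (tau y p.2) = _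
  have h1 : tau y p.1 - tau y p.2 = p.1 - p.2 := by
    rw [tau_apply, tau_apply]
    abel
  rw [h1, sg_tau, sg_tau]

theorem pre_union (y : Site) (S : Finset Site) (B : Set Site) :
    (tau y) ⁻¹' (↑(S.map (tau y).toEmbedding) ∪ B) = ↑S ∪ (tau y) ⁻¹' B := by
  ext z
  simp only [Set.mem_preimage, Set.mem_union, Finset.mem_coe, Finset.mem_map_equiv,
    Equiv.symm_apply_apply]

/-- sums over subsets of a translate -/
theorem sum_pow_map (y : Site) (Λ : Finset Site) (f : Finset Site → ℝ) :
    ∑ S ∈ (Λ.map (tau y).toEmbedding).powerset, f S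
      = ∑ S ∈ Λ.powerset, f (S.map (tau y).toEmbedding) := by
  symm
  refine Finset.sum_nbij' (fun S => S.map (tau y).toEmbedding)
    (fun S => S.map (tau y).symm.toEmbedding) ?_ ?_ ?_ ?_ ?_
  · intro S hS
    rw [Finset.mem_powerset] at hS ⊢
    exact Finset.map_subset_map.mpr hS
  · intro S hS
    rw [Finset.mem_powerset] at hS ⊢
    intro z hz
    rw [Finset.mem_map_equiv, Equiv.symm_symm] at hz
    have := hS hz
    rw [Finset.mem_map_equiv, Equiv.symm_apply_apply] at this
    exact this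
  · intro S _
    ext z
    simp only [Finset.mem_map_equiv, Equiv.symm_symm, Equiv.symm_apply_apply]
  · intro S _
    ext z
    simp only [Finset.mem_map_equiv, Equiv.symm_symm, Equiv.apply_symm_apply]
  · intro S _
    rfl

theorem wt_map (R : ℕ) (J h : Site → ℝ) (T : ℝ) (y : Site) (Λ : Finset Site) (B : Set Site)
    (S : Finset Site) :
    wt R J h T (Λ.map (tau y).toEmbedding) B (S.map (tau y).toEmbedding)
      = wt R J (fun x => h (y + x)) T Λ ((tau y) ⁻¹' B) S := by
  unfold wt
  rw [en_map, pre_union]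

theorem mg_map (R : ℕ) (J h : Site → ℝ) (T : ℝ) (y : Site) (Λ : Finset Site) (B : Set Site)
    (x : Site) :
    mg R J h T (Λ.map (tau y).toEmbedding) B (tau y x)
      = mg R J (fun x => h (y + x)) T Λ ((tau y) ⁻¹' B) x := by
  unfold mg Zf
  rw [sum_pow_map, sum_pow_map]
  simp only [wt_map, sg_tau, pre_union]

theorem gs_map (R : ℕ) (J h : Site → ℝ) (y : Site) (Λ : Finset Site) (B : Set Site)
    (S : Finset Site) :
    S.map (tau y).toEmbedding ∈ gs R J h (Λ.map (tau y).toEmbedding) B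
      ↔ S ∈ gs R J (fun x => h (y + x)) Λ ((tau y) ⁻¹' B) := by
  classical
  unfold gs
  rw [Finset.mem_filter, Finset.mem_filter, Finset.mem_powerset, Finset.mem_powerset,
    Finset.map_subset_map]
  refine and_congr_right fun _ => ?_
  rw [en_map, pre_union]
  constructor
  · intro H S' hS'
    have h1 := H (S'.map (tau y).toEmbedding)
      (Finset.mem_powerset.mpr (Finset.map_subset_map.mpr (Finset.mem_powerset.mp hS')))
    rw [en_map, pre_union] at h1
    exact h1
  · intro H S' hS'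
    have h2 : S' = (S'.map (tau y).symm.toEmbedding).map (tau y).toEmbedding := by
      ext z
      simp only [Finset.mem_map_equiv, Equiv.symm_symm, Equiv.apply_symm_apply]
    rw [h2, en_map, pre_union]
    refine H _ ?_
    rw [Finset.mem_powerset] at hS' ⊢
    intro z hz
    rw [Finset.mem_map_equiv, Equiv.symm_symm] at hz
    have := hS' hz
    rw [Finset.mem_map_equiv, Equiv.symm_apply_apply] at this
    exact this

theorem sum_gs_map (R : ℕ) (J h : Site → ℝ) (y : Site) (Λ : Finset Site) (B : Set Site)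
    (f : Finset Site → ℝ) :
    ∑ S ∈ gs R J h (Λ.map (tau y).toEmbedding) B, f S
      = ∑ S ∈ gs R J (fun x => h (y + x)) Λ ((tau y) ⁻¹' B), f (S.map (tau y).toEmbedding) := by
  symm
  refine Finset.sum_nbij' (fun S => S.map (tau y).toEmbedding)
    (fun S => S.map (tau y).symm.toEmbedding) ?_ ?_ ?_ ?_ ?_
  · intro S hS
    exact (gs_map R J h y Λ B S).mpr hS
  · intro S hS
    have h2 : S = (S.map (tau y).symm.toEmbedding).map (tau y).toEmbedding := by
      ext z
      simp only [Finset.mem_map_equiv, Equiv.symm_symm, Equiv.apply_symm_apply]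
    rw [h2, gs_map] at hS
    exact hS
  · intro S _
    ext z
    simp only [Finset.mem_map_equiv, Equiv.symm_symm, Equiv.symm_apply_apply]
  · intro S _
    ext z
    simp only [Finset.mem_map_equiv, Equiv.symm_symm, Equiv.apply_symm_apply]
  · intro S _
    rfl

theorem mg0_map (R : ℕ) (J h : Site → ℝ) (y : Site) (Λ : Finset Site) (B : Set Site)
    (x : Site) :
    mg0 R J h (Λ.map (tau y).toEmbedding) B (tau y x)
      = mg0 R J (fun x => h (y + x)) Λ ((tau y) ⁻¹' B) x := by
  unfold mg0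
  have hc : ((gs R J h (Λ.map (tau y).toEmbedding) B).card : ℝ)
      = ((gs R J (fun x => h (y + x)) Λ ((tau y) ⁻¹' B)).card : ℝ) := by
    have h1 := sum_gs_map R J h y Λ B (fun _ => (1 : ℝ))
    rw [Finset.sum_const, Finset.sum_const, nsmul_eq_mul, nsmul_eq_mul, mul_one, mul_one] at h1
    exact h1
  rw [hc, sum_gs_map]
  simp only [sg_tau, pre_union]

theorem pf_TRA : T_TRA := by
  intro R J h T y r
  have h0 : y = tau y 0 := by
    rw [tau_apply, add_zero]
  have hc : (tau y) ⁻¹' ((↑((box r).map (tau y).toEmbedding) : Set Site)ᶜ)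
      = ((↑(box r) : Set Site))ᶜ := by
    ext z
    simp only [Set.mem_preimage, Set.mem_compl_iff, Finset.mem_coe, Finset.mem_map_equiv,
      Equiv.symm_apply_apply]
  have he : (tau y) ⁻¹' (∅ : Set Site) = ∅ := Set.preimage_empty
  have h1 : ∀ B : Set Site, mg R J h T (bx y r) B y
      = mg R J (fun x => h (y + x)) T (box r) ((tau y) ⁻¹' B) 0 := by
    intro B
    rw [← mg_map, ← bx_map, ← h0]
  have h2 : ∀ B : Set Site, mg0 R J h (bx y r) B y
      = mg0 R J (fun x => h (y + x)) (box r) ((tau y) ⁻¹' B) 0 := by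
    intro B
    rw [← mg0_map, ← bx_map, ← h0]
  have hc2 : (tau y) ⁻¹' ((↑(bx y r) : Set Site)ᶜ) = ((↑(box r) : Set Site))ᶜ := by
    rw [bx_map]
    exact hc
  unfold infl inf0 inf1
  rw [h1, h1, h2, h2, hc2, he]

end Pool.Agent.H30.RFC
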