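import Pool.Agent.H98.RFC.Targets

set_option autoImplicit false

noncomputable section

open MeasureTheory ProbabilityTheory Pool.Agent.H98.RFC

namespace Pool.Agent.H30.RFC

theorem pf_TRG : T_TRG := by
  intro y
  unfold gam
  refine Measure.eq_infinitePi _ fun s t ht => ?_
  have hmeas : Measurable (fun (η : Site → ℝ) (x : Site) => η (y + x)) :=
    measurable_pi_lambda _ fun x => measurable_pi_apply (y + x)
  rw [Measure.map_apply hmeas (MeasurableSet.pi s.countable_toSet fun i _ => ht i)]
  have hpre : (fun (η : Site → ℝ) (x : Site) => η (y + x)) ⁻¹' (Set.pi (↑s : Set Site) t)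
      = Set.pi (↑(s.image fun x => y + x) : Set Site) (fun z => t (z - y)) := by
    ext η
    simp only [Set.mem_preimage, Set.mem_pi, Finset.coe_image, Set.mem_image, Finset.mem_coe]
    constructor
    · rintro h z ⟨x, hx, rfl⟩
      rw [add_sub_cancel_left]
      exact h x hx
    · intro h x hx
      have := h (y + x) ⟨x, hx, rfl⟩
      rw [add_sub_cancel_left] at this
      exact this
  rw [hpre, Measure.infinitePi_pi _ (fun i _ => ht _),
    Finset.prod_image (fun a _ b _ hab => add_left_cancel hab)]
  refine Finset.prod_congr rfl fun x _ => ?_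
  rw [add_sub_cancel_left]

end Pool.Agent.H30.RFC
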